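import Pool.Agent.helper17.MK.Spec

/-!
# Row MD of the project MK (MP_bf63dc_nt): the numbers
-/

set_option autoImplicit false

namespace Pool.Agent.MK

open Finset Pool.Agent.helper39.MT Pool.Agent.helper85.FC

theorem MD_num2 {C₁ κ θ a α β η u ε T : ℝ} {J kc : ℕ} (hkc : 1 ≤ kc) (hC : 1 ≤ C₁)
    (hε : 0 < ε) (hε1 : ε ≤ 1 / 100) (hT : 2560 * T * C₁ ^ 2 / ε ^ 2 ≤ J + 1)
    (hu : u = ε / (16 * C₁ * (J + 1))) (hκ : 0 < κ) (ha : 0 < a)
    (hθ : θ = u * (ε * a) / ((4 * kc : ℕ) : ℝ))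
    (hη0 : 0 ≤ η) (hη : ((4 * kc : ℕ) : ℝ) * η ≤ ε / 100)
    (hα : κ * θ * (J + 2) / 2 ≤ α) (hβ0 : 0 < β) (hβ2 : β ≤ 2 * C₁ * (κ * θ)) :
    T * a * κ * (Real.exp η * β) ^ (4 * kc) ≤ kc * ((1 - ε) * (α ^ 2 * β ^ (4 * kc - 1))) := by
  have hkc0 : (1 : ℝ) ≤ kc := by exact_mod_cast hkc
  have hJ0 : (0 : ℝ) ≤ J := Nat.cast_nonneg J
  have hC0 : 0 < C₁ := by linarith
  have hu0 : 0 < u := by rw [hu]; positivity
  have hθ0 : 0 < θ := by rw [hθ]; push_cast; positivity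
  have hpow : β ^ (4 * kc) = β ^ (4 * kc - 1) * β := by
    rw [← pow_succ]; congr 1; omega
  have hα0 : 0 ≤ α := le_trans (by positivity) hα
  have hrhs0 : 0 ≤ kc * ((1 - ε) * (α ^ 2 * β ^ (4 * kc - 1))) := by
    have : 0 ≤ 1 - ε := by linarith
    positivity
  rcases le_or_gt T 0 with hT0 | hT0
  · refine le_trans ?_ hrhs0
    have h1 : 0 ≤ a * κ * (Real.exp η * β) ^ (4 * kc) := by positivity
    nlinarith
  have hexp : (Real.exp η * β) ^ (4 * kc) ≤ 2 * β ^ (4 * kc) := by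
    calc (Real.exp η * β) ^ (4 * kc) = Real.exp (((4 * kc : ℕ) : ℝ) * η) * β ^ (4 * kc) := by
          rw [mul_pow, ← Real.exp_nat_mul]
      _ ≤ 2 * β ^ (4 * kc) := by
          refine mul_le_mul_of_nonneg_right ?_ (by positivity)
          have := M5_exp_le (x := ((4 * kc : ℕ) : ℝ) * η) (by positivity) (by linarith)
          linarith
  have hkθ : (kc : ℝ) * θ = u * (ε * a) / 4 := by
    rw [hθ]; push_cast; field_simp
  have h2 : (κ * θ * (J + 2) / 2) ^ 2 ≤ α ^ 2 := pow_le_pow_left₀ (by positivity) hα 2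
  have hJT : 2560 * T * C₁ ^ 2 ≤ ε ^ 2 * (J + 1) := by
    rw [div_le_iff₀ (by positivity)] at hT
    linarith
  have hm : T * a * κ * (2 * β) ≤ kc * (1 / 2 * α ^ 2) := by
    have h1 : T * a * κ * (2 * β) ≤ T * a * κ * (2 * (2 * C₁ * (κ * θ))) :=
      mul_le_mul_of_nonneg_left (by linarith) (by positivity)
    have h3 : (kc : ℝ) * (1 / 2 * (κ * θ * (J + 2) / 2) ^ 2) ≤ kc * (1 / 2 * α ^ 2) :=
      mul_le_mul_of_nonneg_left (by linarith) (by positivity)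
    have h4 : (kc : ℝ) * (1 / 2 * (κ * θ * (J + 2) / 2) ^ 2)
        = κ ^ 2 * θ * (J + 2) ^ 2 / 8 * (kc * θ) := by ring
    have h5 : κ ^ 2 * θ * (J + 2) ^ 2 / 8 * (u * (ε * a) / 4)
        = κ ^ 2 * θ * a * (ε ^ 2 * (J + 2) ^ 2 / (512 * C₁ * (J + 1))) := by
      rw [hu]; field_simp; ring
    have h6 : 4 * T * C₁ ≤ ε ^ 2 * (J + 2) ^ 2 / (512 * C₁ * (J + 1)) := by
      rw [le_div_iff₀ (by positivity)]
      have h7 : ((J : ℝ) + 1) ^ 2 ≤ (J + 2) ^ 2 := by nlinarith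
      have h8 : ε ^ 2 * ((J : ℝ) + 1) ^ 2 ≤ ε ^ 2 * (J + 2) ^ 2 :=
        mul_le_mul_of_nonneg_left h7 (sq_nonneg ε)
      have h9 : 2560 * T * C₁ ^ 2 * ((J : ℝ) + 1) ≤ ε ^ 2 * (J + 1) * (J + 1) :=
        mul_le_mul_of_nonneg_right hJT (by positivity)
      nlinarith
    have h7 : κ ^ 2 * θ * a * (4 * T * C₁)
        ≤ κ ^ 2 * θ * a * (ε ^ 2 * (J + 2) ^ 2 / (512 * C₁ * (J + 1))) :=
      mul_le_mul_of_nonneg_left h6 (by positivity)
    rw [hkθ, h5] at h4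
    nlinarith
  have hβp : 0 < β ^ (4 * kc - 1) := by positivity
  calc T * a * κ * (Real.exp η * β) ^ (4 * kc) ≤ T * a * κ * (2 * β ^ (4 * kc)) :=
        mul_le_mul_of_nonneg_left hexp (by positivity)
    _ = T * a * κ * (2 * β) * β ^ (4 * kc - 1) := by rw [hpow]; ring
    _ ≤ kc * (1 / 2 * α ^ 2) * β ^ (4 * kc - 1) := mul_le_mul_of_nonneg_right hm hβp.le
    _ = kc * (1 / 2 * (α ^ 2 * β ^ (4 * kc - 1))) := by ring
    _ ≤ kc * ((1 - ε) * (α ^ 2 * β ^ (4 * kc - 1))) := by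
        refine mul_le_mul_of_nonneg_left ?_ (by positivity)
        exact mul_le_mul_of_nonneg_right (by linarith) (by positivity)

theorem MD_num3 {α β βz η ε Q P : ℝ} {k : ℕ} (hk : 2 ≤ k)
    (hε : 0 < ε) (hε1 : ε ≤ 1 / 100)
    (hη0 : 0 ≤ η) (hη : (k : ℝ) * η ≤ ε / 400) (hβ0 : 0 < β)
    (hβz : βz ≤ Real.exp (60 * η) * β) (hβz0 : 0 ≤ βz)
    (hP : P ≤ Real.exp (8 * η)) (hQ : Q ≤ P * (Real.exp (60 * η) * α ^ 4 * βz ^ (k - 2))) :
    (Real.exp η * β) ^ k * Q ≤ (1 + 4 * ε) * ((1 - ε) * (α ^ 2 * β ^ (k - 1))) ^ 2 := by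
  have hk2 : (2 : ℝ) ≤ k := by exact_mod_cast hk
  have e1 : (Real.exp η * β) ^ k = Real.exp (k * η) * β ^ k := by
    rw [mul_pow, ← Real.exp_nat_mul]
  have e2 : βz ^ (k - 2) ≤ Real.exp (60 * (((k - 2 : ℕ) : ℝ) * η)) * β ^ (k - 2) := by
    calc βz ^ (k - 2) ≤ (Real.exp (60 * η) * β) ^ (k - 2) := pow_le_pow_left₀ hβz0 hβz _
      _ = _ := by
        rw [mul_pow, ← Real.exp_nat_mul]
        congr 2
        ring
  have e3 : ((k - 2 : ℕ) : ℝ) = k - 2 := by rw [Nat.cast_sub hk]; norm_num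
  have e4 : β ^ k * β ^ (k - 2) = (β ^ (k - 1)) ^ 2 := by
    rw [← pow_add, ← pow_mul]; congr 1; omega
  have hQ2 : Q ≤ Real.exp (8 * η) * (Real.exp (60 * η) * α ^ 4
      * (Real.exp (60 * ((k - 2) * η)) * β ^ (k - 2))) := by
    refine hQ.trans ?_
    rw [← e3]
    refine mul_le_mul hP ?_ (by positivity) (Real.exp_pos _).le
    exact mul_le_mul_of_nonneg_left e2 (by positivity)
  have hexp : Real.exp (k * η) * (Real.exp (8 * η) * (Real.exp (60 * η)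
      * Real.exp (60 * ((k - 2) * η)))) ≤ 1 + ε := by
    rw [← Real.exp_add, ← Real.exp_add, ← Real.exp_add]
    have h1 : k * η + (8 * η + (60 * η + 60 * ((k - 2) * η))) ≤ 61 * (k * η) := by
      nlinarith
    have h2 : Real.exp (k * η + (8 * η + (60 * η + 60 * ((k - 2) * η)))) ≤ Real.exp (61 * (k * η)) :=
      Real.exp_le_exp.2 h1
    have h3 := M5_exp_le (x := 61 * (k * η)) (by positivity) (by linarith)
    linarith
  have hmain : (Real.exp η * β) ^ k * Q ≤ (1 + ε) * (α ^ 4 * (β ^ (k - 1)) ^ 2) := by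
    calc (Real.exp η * β) ^ k * Q
        ≤ (Real.exp η * β) ^ k * (Real.exp (8 * η) * (Real.exp (60 * η) * α ^ 4
          * (Real.exp (60 * ((k - 2) * η)) * β ^ (k - 2)))) :=
          mul_le_mul_of_nonneg_left hQ2 (by positivity)
      _ = (Real.exp (k * η) * (Real.exp (8 * η) * (Real.exp (60 * η)
            * Real.exp (60 * ((k - 2) * η))))) * (α ^ 4 * (β ^ k * β ^ (k - 2))) := by
          rw [e1]; ring
      _ = (Real.exp (k * η) * (Real.exp (8 * η) * (Real.exp (60 * η)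
            * Real.exp (60 * ((k - 2) * η))))) * (α ^ 4 * (β ^ (k - 1)) ^ 2) := by rw [e4]
      _ ≤ (1 + ε) * (α ^ 4 * (β ^ (k - 1)) ^ 2) :=
          mul_le_mul_of_nonneg_right hexp (by positivity)
  refine hmain.trans ?_
  have h5 : 1 + ε ≤ (1 + 4 * ε) * (1 - ε) ^ 2 := by
    have h6 : 0 ≤ ε * (1 - 7 * ε) := mul_nonneg hε.le (by linarith)
    have h7 : 0 ≤ 4 * ε ^ 3 := by positivity
    linarith [(by ring : (1 + 4 * ε) * (1 - ε) ^ 2 = 1 + ε + ε * (1 - 7 * ε) + 4 * ε ^ 3)]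
  calc (1 + ε) * (α ^ 4 * (β ^ (k - 1)) ^ 2)
      ≤ ((1 + 4 * ε) * (1 - ε) ^ 2) * (α ^ 4 * (β ^ (k - 1)) ^ 2) :=
        mul_le_mul_of_nonneg_right h5 (by positivity)
    _ = _ := by ring

lemma MD_L {k u L θ : ℝ} {J : ℕ} (hk : k = 8 * 2 ^ J) (hL0 : 0 < L) (hu : u ≤ 1)
    (hθ : θ = u * L / k) : 2 ^ J * θ ≤ L / 2 := by
  have h2 : 2 ^ J * θ = u * L / 8 := by
    rw [hθ, hk]
    have : (2 : ℝ) ^ J ≠ 0 := by positivity
    field_simp
  rw [h2]
  have := mul_le_mul_of_nonneg_right hu hL0.le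
  linarith

open Classical in
/-- Row MD: the numbers. -/
theorem MD : MD_stmt := by
  intro T ε hε hε1
  obtain ⟨C₁, hC₁, hup⟩ := HP_upper
  have hC0 : 0 < C₁ := by linarith
  obtain ⟨J, hJ⟩ := exists_nat_ge (2560 * T * C₁ ^ 2 / ε ^ 2)
  have hJ0 : (0 : ℝ) ≤ J := Nat.cast_nonneg J
  set kc : ℕ := 2 ^ (J + 1) with hkcdef
  have hkc1 : 1 ≤ kc := Nat.one_le_two_pow
  set k : ℕ := 4 * kc with hkdef
  have hk : 2 ≤ k := by omega
  have hk2 : (2 : ℝ) ≤ k := by exact_mod_cast hk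
  have hk0 : (0 : ℝ) < k := by linarith
  set N : ℕ := ⌈200 / ε⌉₊ with hN
  have hN1 : 200 / ε ≤ N := Nat.le_ceil _
  have hN1' : 200 ≤ N * ε := by rwa [div_le_iff₀ hε] at hN1
  have hN2 : 2 ≤ N := by
    have h1 : (200 : ℝ) ≤ N := by
      have h0 : (0 : ℝ) ≤ N := Nat.cast_nonneg N
      nlinarith
    have h2 : (200 : ℕ) ≤ N := by exact_mod_cast h1
    omega
  set D : ℕ := N * (k ^ 2 + 2 * k) with hD
  have hDk : 4 * k + 4 ≤ D := by
    have h1 : 2 * (k ^ 2 + 2 * k) ≤ N * (k ^ 2 + 2 * k) := Nat.mul_le_mul_right _ hN2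
    have h2 : 4 * k + 4 ≤ 2 * (k ^ 2 + 2 * k) := by nlinarith
    omega
  have hD2 : 2 ≤ D := by omega
  refine ⟨kc, D, hkc1, hDk, ?_⟩
  intro W hW hWD
  have hκ : 0 < (Nat.totient W : ℝ) / W := by
    have h1 : 0 < Nat.totient W := Nat.totient_pos.2 hW
    positivity
  set κ : ℝ := (Nat.totient W : ℝ) / W with hκdef
  obtain ⟨x₀, hx₀⟩ := hup W hW
  obtain ⟨θ₀, hθ₀, hdy⟩ := dyadic_sums hC₁ hW hx₀ J
  set u : ℝ := ε / (16 * C₁ * (J + 1)) with hu
  have hu0 : 0 < u := div_pos hε (mul_pos (mul_pos (by norm_num) hC0) (by linarith))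
  refine ⟨max (max (θ₀ * k / (u * ε)) (x₀ * k / (u * ε))) (max (10 / ε) ((C₁ * κ) ^ 2)), ?_⟩
  intro a ha R hR
  have ha1 : θ₀ * k / (u * ε) ≤ a := le_trans (le_trans (le_max_left _ _) (le_max_left _ _)) ha
  have ha2 : x₀ * k / (u * ε) ≤ a := le_trans (le_trans (le_max_right _ _) (le_max_left _ _)) ha
  have ha3 : 10 / ε ≤ a := le_trans (le_trans (le_max_left _ _) (le_max_right _ _)) ha
  have ha4 : (C₁ * κ) ^ 2 ≤ a := le_trans (le_trans (le_max_right _ _) (le_max_right _ _)) ha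
  obtain ⟨ha0, ha3', ha1000⟩ := M5n_a hε hε1 ha3
  -- the scale R
  have hRlog : (1 / 4 - 2 * ε) * a ≤ Real.log R := M5n_R hε1 ha0 ha3' hR
  set L : ℝ := ε * a with hLdef
  have hL0 : 0 < L := mul_pos hε ha0
  set θ : ℝ := u * L / k with hθ
  have hθθ : θ₀ ≤ θ := M5n_th hk0 hu0 hε ha1
  have hθx : x₀ ≤ θ := M5n_th hk0 hu0 hε ha2
  have hθ0 : 0 < θ := by linarith
  have hu16 : u ≤ 1 := M5n_u hε1 hC₁ hJ0 hu
  have hΛ : 2 ^ J * θ ≤ L / 2 :=
    MD_L (by rw [hkdef, hkcdef]; push_cast; ring) hL0 hu16 hθ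
  have hLR : L ≤ Real.log R := by
    refine le_trans ?_ hRlog
    rw [hLdef]
    exact mul_le_mul_of_nonneg_right (by linarith) ha0.le
  obtain ⟨hα, hβ1, hβ2, hmom⟩ := hdy θ hθθ R (by linarith)
  -- eta
  set η : ℝ := ∑ p : PS W R, qP p ^ 2 with hη
  have hη0 : 0 ≤ η := sum_nonneg fun p _ => sq_nonneg _
  have hη1 : ((k : ℝ) ^ 2 + 2 * k) * η ≤ ε / 100 := by
    have h1 := M5_SF_eta_le hD2 hWD (R := R)
    have h2 : (D : ℝ) = N * ((k : ℝ) ^ 2 + 2 * k) := by rw [hD]; push_cast; ring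
    rw [h2] at h1
    have h3 : 0 < (k : ℝ) ^ 2 + 2 * k := add_pos (pow_pos hk0 2) (mul_pos two_pos hk0)
    have hN0 : (0 : ℝ) < N := by
      have : (2 : ℝ) ≤ N := by exact_mod_cast hN2
      linarith
    calc ((k : ℝ) ^ 2 + 2 * k) * η ≤ ((k : ℝ) ^ 2 + 2 * k) * (2 / (N * ((k : ℝ) ^ 2 + 2 * k))) :=
          mul_le_mul_of_nonneg_left h1 h3.le
      _ = 2 / N := by field_simp
      _ ≤ ε / 100 := by
          rw [div_le_div_iff₀ hN0 (by norm_num)]
          linarith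
  have hη2 : (k : ℝ) * η ≤ ε / 400 := M5n_eta hk2 hη0 hη1
  have hprime : ∀ p ∈ PS W R, p.Prime := fun p hp => (mem_PS.1 hp).2.1
  have hbigN : ∀ p ∈ PS W R, 4 * k + 4 < p := by
    intro p hp
    have h1 : D < p := by
      by_contra hcon
      exact (mem_PS.1 hp).2.2 (hWD p (hprime p hp) (not_lt.1 hcon))
    omega
  have hbig : ∀ p ∈ PS W R, 2 * (k : ℝ) + 2 ≤ p := by
    intro p hp
    have h2 : 2 * k + 2 ≤ p := by
      have := hbigN p hp
      omega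
    exact_mod_cast h2
  have hq : ∀ p : PS W R, 0 ≤ qP p := fun p => qP_nonneg p
  have hq4 : ∀ p : PS W R, qP p ≤ 1 / 4 := fun p => by
    have h1 := hbig p p.2
    unfold qP
    rw [div_le_div_iff₀ (by linarith) (by norm_num)]
    linarith
  have hkq : ∀ p : PS W R, 2 * k * qP p ≤ 1 := fun p => by
    have := hbig p p.2
    unfold qP
    rw [mul_one_div, div_le_one (by linarith)]
    linarith
  have hal : ∀ p : PS W R, 0 ≤ qP p * (1 - 2 * k * qP p) := fun p =>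
    mul_nonneg (hq p) (by linarith [hkq p])
  have haq : ∀ p : PS W R, qP p * (1 - 2 * k * qP p) ≤ qP p := fun p => by
    refine mul_le_of_le_one_right (hq p) ?_
    have : 0 ≤ 2 * k * qP p := mul_nonneg (mul_nonneg zero_le_two hk0.le) (hq p)
    linarith
  have hg0 : gP J θ (∅ : Finset (PS W R)) = 1 := by
    unfold gP
    rw [sum_empty]
    exact gJ_zero hθ0.le
  set α : ℝ := SS (qP (P := PS W R)) (gP J θ) with hαdef
  set β : ℝ := SS (qP (P := PS W R)) (fun S => gP J θ S ^ 2) with hβdef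
  have hα1 : 1 ≤ α := M5_SF_one_le_SS hq M5_SF_gP_nonneg hg0
  have hβone : 1 ≤ β := M5_SF_one_le_SS hq (fun S => sq_nonneg _) (by rw [hg0, one_pow])
  have hβ0 : 0 < β := by linarith
  have hβa := SS_one_sub_ge hq (f := fun S : Finset (PS W R) => gP J θ S ^ 2)
    (fun S => sq_nonneg _) M5_SF_gP_sq_anti (c := 2 * k) (mul_nonneg zero_le_two hk0.le) hkq
  rw [← hη, ← hβdef] at hβa
  have hmoma : SS (fun p : PS W R => qP p * (1 - 2 * k * qP p))
      (fun S => gP J θ S ^ 2 * ∑ p ∈ S, lP p) ≤ (J + 1) * C₁ * (κ * θ ^ 2) :=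
    (M5_SF_SS_mono hal haq fun S => mul_nonneg (sq_nonneg _)
      (sum_nonneg fun p _ => M5_SF_lP_nonneg p)).trans hmom
  have n1 := M5_num1 (α := α) hk hC₁ hε hε1 hu hκ hL0 hθ hη0 hη1 hΛ hβ1 hβa hmoma
  have hX0 : 0 ≤ (1 - ε / 2) * (α ^ 2 * β ^ (k - 1)) :=
    mul_nonneg (by linarith) (mul_nonneg (sq_nonneg α) (pow_nonneg hβ0.le _))
  set E₀ : ℝ := (Real.exp η * β) ^ k with hE₀
  set E₁ : ℝ := (1 - ε) * (α ^ 2 * β ^ (k - 1)) with hE₁
  have hAB1 : 1 ≤ α ^ 2 * β ^ (k - 1) :=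
    one_le_mul_of_one_le_of_one_le (one_le_pow₀ hα1) (one_le_pow₀ hβone)
  have hlow : ∀ m : Fin k, E₁ ≤ Ex (fun p : PS W R => mu1 m (p : ℝ))
      (fun e => FF (fun p : PS W R => (p : ℕ)) (yy (k := k) lP L (gP J θ)) e ^ 2) := by
    intro m
    have h1 := M5_lower_final hk hbig m J hθ0.le (Λ := L) (by linarith) n1 hX0
    refine le_trans ?_ h1
    rw [← hη, hE₁]
    exact M5n_E hε hε1 (mul_nonneg hk0.le hη0) hη2 (by linarith)
  have hyle : ∀ σ, |yy (k := k) (lP (P := PS W R)) L (gP J θ) σ| ≤ 1 := by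
    intro σ
    have h1 : 0 ≤ ∏ i, gP J θ (cls σ i) := prod_nonneg fun i _ => M5_SF_gP_nonneg _
    have h2 : ∏ i, gP J θ (cls σ i) ≤ 1 :=
      prod_le_one (fun i _ => M5_SF_gP_nonneg _) fun i _ => M5_SF_gP_le_one _
    rw [yy]
    split_ifs
    · rw [mul_one, abs_of_nonneg h1]
      exact h2
    · simp
  have hysupp : ∀ σ, yy (k := k) (lP (P := PS W R)) L (gP J θ) σ ≠ 0 →
      ∑ p ∈ supp σ, lP p ≤ L := by
    intro σ hσ
    by_contra hcon
    exact hσ (by rw [yy, if_neg hcon, mul_zero])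
  have hY0 : (0 : ℝ) ≤ 0 := le_refl 0
  refine ⟨yy lP L (gP J θ), E₀, E₁, hyle, ?_, ?_, ?_, ?_, hlow, ?_, ?_⟩
  · intro σ hσ
    exact M5_supp_dd hprime σ (hysupp σ hσ)
  · refine one_le_pow₀ (one_le_mul_of_one_le_of_one_le (Real.one_le_exp hη0) hβone)
  · rw [hE₁]
    exact M5n_half hε1 hAB1
  · have hU := M5_upper_final (k := k) hbig J θ L
    exact hU
  · exact MD_num2 hkc1 hC₁ hε hε1 (by linarith) hu hκ ha0 hθ hη0 (by rw [← hkdef]; linarith)
      hα hβ0 hβ2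
  · intro m m' hmm
    refine ⟨hz m m' qP lP 0 (yy lP L (gP J θ)), ?_, ?_, ?_, ?_⟩
    · intro σ
      have hα2 : α ≤ a * (C₁ * κ) := M5n_al hθ0 hθx hΛ hLdef hε1 ha0 (mul_nonneg hC0.le hκ.le)
        fun h1 => (M5_alpha_le hθ0.le).trans (hx₀ _ h1 R)
      have hα3 : α ^ 2 ≤ a ^ 3 := by
        calc α ^ 2 ≤ (a * (C₁ * κ)) ^ 2 := pow_le_pow_left₀ (by linarith) hα2 2
          _ = a ^ 2 * (C₁ * κ) ^ 2 := by ring
          _ ≤ a ^ 2 * a := mul_le_mul_of_nonneg_left ha4 (sq_nonneg a)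
          _ = a ^ 3 := by ring
      unfold hz
      split_ifs with hσ
      · have ht : ∀ p, rem m' σ p ≠ some m ∧ rem m' σ p ≠ some m' := by
          intro p
          unfold rem
          split_ifs with h
          · simp
          · exact ⟨hσ.1 p, h⟩
        obtain ⟨b1, b2⟩ := yy2_le m m' hmm hq (l := lP) (g := gP J θ)
          (fun S => M5_SF_gP_nonneg S) L (rem m' σ) ht
        have hZ : 1 ≤ ZZ (qP (P := PS W R)) lP 0 (rem m' σ) := by
          unfold ZZ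
          have h1 : (∅ : Finset (PS W R)) ∈ (univ : Finset (Finset (PS W R))).filter
              (fun S => Disjoint S (supp (rem m' σ)) ∧ ∑ p ∈ S, lP p ≤ 0) := by
            rw [mem_filter]
            exact ⟨mem_univ _, disjoint_empty_left _, by rw [sum_empty]⟩
          have h2 := single_le_sum (f := fun S : Finset (PS W R) => ∏ p ∈ S, qP p)
            (fun S _ => prod_nonneg fun p _ => hq p) h1
          simpa using h2
        have hprod1 : ∏ i ∈ (univ.erase m).erase m', gP J θ (cls (rem m' σ) i) ≤ 1 :=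
          prod_le_one (fun i _ => M5_SF_gP_nonneg _) fun i _ => M5_SF_gP_le_one _
        rw [abs_of_nonneg (div_nonneg b1 (by linarith))]
        refine (div_le_self b1 hZ).trans (b2.trans ?_)
        refine le_trans ?_ hα3
        exact mul_le_of_le_one_left (sq_nonneg _) hprod1
      · rw [abs_zero]; exact pow_nonneg ha0.le 3
    · intro σ hσ
      have h1 := hz_support m m' (fun p => M5_SF_lP_nonneg p) hysupp σ hσ
      refine ⟨M5_supp_dd hprime σ (h1.2.trans (le_of_eq (by rw [hLdef]; ring))), fun p => ⟨h1.1 p, ?_⟩⟩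
      intro hpm
      have h2 : ∑ p ∈ cls σ m', lP p ≤ 0 := by
        by_contra hcon
        refine hσ ?_
        unfold hz
        rw [if_neg]
        exact fun h => hcon h.2
      have h3 : lP p ≤ ∑ p ∈ cls σ m', lP p :=
        single_le_sum (f := fun p : PS W R => lP p) (fun q _ => M5_SF_lP_nonneg q)
          ((M3_mem_cls σ m' p).2 hpm)
      have h4 : 0 < lP p := Real.log_pos (by exact_mod_cast (hprime p p.2).one_lt)
      linarith
    · intro e he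
      exact FF_hz (fun p : PS W R => (p : ℕ)) (fun p => (hprime p p.2).two_le) m m' hmm lP _ hY0 _ e he
    · have h2 := hz_form hk m m' hmm hq hq4 (fun p => M5_SF_lP_nonneg p) (g := gP J θ)
        (fun S => M5_SF_gP_nonneg S) hY0 L
      rw [← hη] at h2
      have hP := M5_prod_le (P := PS W R) (c := 8) (by norm_num)
      rw [← hη] at hP
      have hP0 : 0 ≤ ∏ p : PS W R, (1 + 8 * (1 / (((p : ℕ) : ℝ) - 1)) ^ 2) :=
        prod_nonneg fun p _ => add_nonneg zero_le_one (mul_nonneg (by norm_num) (sq_nonneg _))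
      have hβz := SS_one_add_six hq hq4 (f := fun S : Finset (PS W R) => gP J θ S ^ 2)
        (fun S => sq_nonneg _) M5_SF_gP_sq_anti
      rw [← hη, ← hβdef] at hβz
      have hβz0 : 0 ≤ SS (fun p : PS W R => qP p * (1 + 6 * qP p)) (fun S => gP J θ S ^ 2) :=
        sum_nonneg fun S _ => mul_nonneg (sq_nonneg _)
          (prod_nonneg fun p _ => mul_nonneg (hq p) (by linarith [hq p]))
      have hD1 : 1 ≤ SS (qP (P := PS W R)) (fun S => if ∑ p ∈ S, lP p ≤ 0 then 1 else 0) :=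
        M5_SF_one_le_SS hq (fun S => by split_ifs <;> norm_num) (by simp)
      refine MD_num3 (α := α) hk hε hε1 hη0 hη2 hβ0 hβz hβz0 hP ?_
      refine mul_le_mul_of_nonneg_left ?_ hP0
      refine h2.trans (div_le_self ?_ hD1)
      exact mul_nonneg (mul_nonneg (Real.exp_pos _).le (pow_nonneg (by linarith) 4))
        (pow_nonneg hβz0 _)

end Pool.Agent.MK
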